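import Pool.Agent.Helper358.General

/-!
# Classification of the modular balls `{x ∈ ∏ [a i, b i] : ∑ |f i (x i)| ≤ 1}`

The starting files show that the spaces `B(κ, a, b)`, `κ` uncountable, are homeomorphic to the
ball `B(κ)`. Here arbitrary continuous injective functions `f i` on compact intervals
`[a i, b i]`, which may be degenerate, take the place of the identity functions on `[a i, b i]`.
If the sum is smaller than one at some point, and uncountably many intervals are nondegenerate,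
the space is homeomorphic to `B(κ₀)`, with `κ₀` the set of the nondegenerate coordinates, and
two such spaces are homeomorphic if and only if their sets `κ₀` are equinumerous.
-/

set_option autoImplicit false

open Finset Filter Topology

universe u v

namespace Pool.Agent.Results.MP_c6db0f_gt.ModularBalls

open Pool.Agent.Helper358

/-- The set of all `x` with `a i ≤ x i ≤ b i` for all `i` and `∑ |f i (x i)| ≤ 1` (the sum is at
most one when all finite partial sums are), a subspace of the product `κ → ℝ`. -/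
def Modular {κ : Type u} (a b : κ → ℝ) (f : κ → ℝ → ℝ) : Set (κ → ℝ) :=
  {x | (∀ i, a i ≤ x i ∧ x i ≤ b i) ∧ ∀ s : Finset κ, ∑ i ∈ s, |f i (x i)| ≤ 1}

/-- The ball `B(κ)`: all `x` with `∑ |x i| ≤ 1`. -/
def Ball (κ : Type u) : Set (κ → ℝ) := {x | ∀ s : Finset κ, ∑ i ∈ s, |x i| ≤ 1}

/-- The assumptions: each `f i` is continuous and injective on `[a i, b i]`, `a i ≤ b i` for all
`i` and `a i < b i` for uncountably many `i`, and `∑ |f i (x i)| < 1` for some `x` with
`a i ≤ x i ≤ b i` for all `i`. -/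
def Admissible {κ : Type u} (a b : κ → ℝ) (f : κ → ℝ → ℝ) : Prop :=
  (∀ i, a i ≤ b i) ∧ Uncountable {i // a i < b i} ∧
    (∀ i, ContinuousOn (f i) (Set.Icc (a i) (b i)) ∧ Set.InjOn (f i) (Set.Icc (a i) (b i))) ∧
    ∃ x : κ → ℝ, (∀ i, a i ≤ x i ∧ x i ≤ b i) ∧
      ∃ r < (1 : ℝ), ∀ s : Finset κ, ∑ i ∈ s, |f i (x i)| ≤ r

theorem isCompact_modular {κ : Type u} {a b : κ → ℝ} {f : κ → ℝ → ℝ} (hab : ∀ i, a i ≤ b i)
    (hf : ∀ i, ContinuousOn (f i) (Set.Icc (a i) (b i))) : IsCompact (Modular a b f) := by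
  have hK : IsCompact (Set.univ.pi fun i => Set.Icc (a i) (b i)) :=
    isCompact_univ_pi fun _ => isCompact_Icc
  let g : κ → ℝ → ℝ := fun i t => f i (max (a i) (min t (b i)))
  have hg : ∀ i, Continuous (g i) := fun i =>
    (hf i).comp_continuous (by fun_prop) fun t =>
      ⟨le_max_left _ _, max_le (hab i) (min_le_right _ _)⟩
  have hgf : ∀ i t, a i ≤ t → t ≤ b i → g i t = f i t := by
    intro i t h1 h2
    show f i (max (a i) (min t (b i))) = f i t
    rw [min_eq_left h2, max_eq_right h1]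
  have hset : Modular a b f = (Set.univ.pi fun i => Set.Icc (a i) (b i)) ∩
      ⋂ s : Finset κ, {x : κ → ℝ | ∑ i ∈ s, |g i (x i)| ≤ 1} := by
    ext x
    simp only [Modular, Set.mem_ofPred_eq, Set.mem_inter_iff, Set.mem_iInter, Set.mem_univ_pi,
      Set.mem_Icc]
    refine and_congr_right fun hx => forall_congr' fun s => ?_
    rw [sum_congr rfl fun i _ => by rw [← hgf i (x i) (hx i).1 (hx i).2]]
  rw [hset]
  refine hK.inter_right (isClosed_iInter fun s => isClosed_le ?_ continuous_const)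
  exact continuous_finsetSum _ fun i _ => ((hg i).comp (continuous_apply i)).abs

theorem isCompact_ball (κ : Type u) : IsCompact (Ball κ) := by
  have h : Ball κ = Modular (fun _ : κ => (-1 : ℝ)) (fun _ => 1) (fun _ t => t) := by
    ext x
    refine ⟨fun hx => ⟨fun i => ?_, hx⟩, fun hx => hx.2⟩
    have := hx {i}
    rw [sum_singleton] at this
    exact abs_le.1 this
  rw [h]
  exact isCompact_modular (fun _ => by norm_num) fun _ => continuousOn_id

theorem ball_homeo_pos (κ : Type u) [Uncountable κ] : Nonempty (Box.Pos κ ≃ₜ Ball κ) := by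
  obtain ⟨h⟩ := Box.box_homeo (κ := κ) (a := fun _ => 1) (b := fun _ => 1)
    (fun _ => by norm_num) (fun _ => by norm_num)
  rw [Box.Bx_one] at h
  exact ⟨h⟩

theorem ball_congr {κ : Type u} {κ' : Type v} (e : κ ≃ κ') : Nonempty (Ball κ ≃ₜ Ball κ') := by
  refine Box.homeo_of_bijOn (isCompact_ball κ) (f := fun x j => x (e.symm j)) ?_ ⟨?_, ?_, ?_⟩
  · exact Continuous.continuousOn (by fun_prop)
  · intro x hx s
    have h := hx (s.map e.symm.toEmbedding)
    rw [sum_map] at h
    exact h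
  · intro x _ y _ h
    funext i
    have := congrFun h (e i)
    simpa using this
  · intro y hy
    refine ⟨fun i => y (e i), fun s => ?_, ?_⟩
    · have h := hy (s.map e.toEmbedding)
      rw [sum_map] at h
      exact h
    · funext j
      show y (e (e.symm j)) = y j
      rw [e.apply_symm_apply]

/-- **The homeomorphism type.** -/
theorem modular_homeo {κ : Type u} {a b : κ → ℝ} {f : κ → ℝ → ℝ} (h : Admissible a b f) :
    Nonempty (Modular a b f ≃ₜ Ball {i // a i < b i}) := by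
  classical
  obtain ⟨hab, hunc, hf, x₀, hx₀, r, hr, hsum⟩ := h
  have := hunc
  -- the cost of the degenerate coordinates
  let g : κ → ℝ := fun i => if a i < b i then 0 else |f i (a i)|
  have hg0 : ∀ i, 0 ≤ g i := fun i => by
    show 0 ≤ if a i < b i then 0 else |f i (a i)|
    split_ifs
    · exact le_rfl
    · exact abs_nonneg _
  have hdeg : ∀ i, ¬ a i < b i → ∀ t, a i ≤ t → t ≤ b i → t = a i := fun i hi t h1 h2 =>
    le_antisymm (h2.trans (not_lt.1 hi)) h1
  -- splitting of finite sums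
  have hle1 : ∀ (x : κ → ℝ), (∀ i, a i ≤ x i ∧ x i ≤ b i) → ∀ i,
      g i + (if a i < b i then |f i (x i)| else 0) = |f i (x i)| := by
    intro x hx i
    by_cases hi : a i < b i
    · simp only [g, if_pos hi, zero_add]
    · simp only [g, if_neg hi, add_zero]
      rw [hdeg i hi (x i) (hx i).1 (hx i).2]
  have hmap : ∀ (x : κ → ℝ) (s : Finset {i // a i < b i}),
      ∑ i ∈ s.map (Function.Embedding.subtype _), (if a i < b i then |f i (x i)| else 0) =
        ∑ i ∈ s, |f i.1 (x i.1)| := by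
    intro x s
    rw [sum_map]
    exact sum_congr rfl fun i _ => if_pos i.2
  have hsub : ∀ (x : κ → ℝ) (t : Finset κ),
      ∑ i ∈ t, (if a i < b i then |f i (x i)| else 0) =
        ∑ i ∈ t.subtype (fun i => a i < b i), |f i.1 (x i.1)| := by
    intro x t
    rw [← sum_filter, ← sum_subtype_eq_sum_filter]
  -- the general estimate
  have hest : ∀ (x : κ → ℝ) (R : ℝ), (∀ i, a i ≤ x i ∧ x i ≤ b i) →
      (∀ s : Finset κ, ∑ i ∈ s, |f i (x i)| ≤ R) →
      ∀ (s : Finset {i // a i < b i}) (t : Finset κ),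
        ∑ i ∈ s, |f i.1 (x i.1)| + ∑ i ∈ t, g i ≤ R := by
    intro x R hx hR s t
    refine le_trans ?_ (hR (s.map (Function.Embedding.subtype _) ∪ t))
    rw [← hmap x s, ← sum_congr rfl fun i _ => hle1 x hx i, sum_add_distrib, add_comm]
    refine add_le_add ?_ ?_
    · exact sum_le_sum_of_subset_of_nonneg subset_union_right fun i _ _ => hg0 i
    · refine sum_le_sum_of_subset_of_nonneg subset_union_left fun i _ _ => ?_
      split_ifs
      · exact abs_nonneg _
      · exact le_rfl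
  have hgs : Summable g := by
    refine summable_of_sum_le hg0 (c := r) fun t => ?_
    have := hest x₀ r hx₀ hsum ∅ t
    rwa [sum_empty, zero_add] at this
  set C : ℝ := ∑' i, g i with hC
  have hest2 : ∀ (x : κ → ℝ) (R : ℝ), (∀ i, a i ≤ x i ∧ x i ≤ b i) →
      (∀ s : Finset κ, ∑ i ∈ s, |f i (x i)| ≤ R) →
      ∀ s : Finset {i // a i < b i}, ∑ i ∈ s, |f i.1 (x i.1)| ≤ R - C := by
    intro x R hx hR s
    have : C ≤ R - ∑ i ∈ s, |f i.1 (x i.1)| :=
      hgs.tsum_le_of_sum_le fun t => by linarith [hest x R hx hR s t]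
    linarith
  have hC1 : C ≤ r := by
    have := hest2 x₀ r hx₀ hsum ∅
    rw [sum_empty] at this
    linarith
  set c : ℝ := 1 - C with hc
  have hc0 : 0 < c := by linarith
  -- the new functions and bounds
  let F : {i // a i < b i} → ℝ → ℝ := fun i t => f i.1 t / c
  have hF : ∀ i : {i // a i < b i}, ContinuousOn (F i) (Set.Icc (a i.1) (b i.1)) := fun i =>
    (hf i.1).1.div_const c
  have hFi : ∀ i : {i // a i < b i}, Set.InjOn (F i) (Set.Icc (a i.1) (b i.1)) := by
    intro i s hs t ht hst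
    exact (hf i.1).2 hs ht ((div_left_inj' hc0.ne').1 hst)
  let A : {i // a i < b i} → ℝ := fun i => min (F i (a i.1)) (F i (b i.1))
  let B : {i // a i < b i} → ℝ := fun i => max (F i (a i.1)) (F i (b i.1))
  have hne : ∀ i : {i // a i < b i}, F i (a i.1) ≠ F i (b i.1) := fun i he =>
    i.2.ne (hFi i ⟨le_rfl, i.2.le⟩ ⟨i.2.le, le_rfl⟩ he)
  have hAB : ∀ i, A i < B i := fun i => min_lt_max.2 (hne i)
  have himg : ∀ (i : {i // a i < b i}) (t : ℝ), a i.1 ≤ t → t ≤ b i.1 →
      A i ≤ F i t ∧ F i t ≤ B i := by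
    intro i t h1 h2
    rcases (hF i).strictMonoOn_of_injOn_Icc' i.2.le (hFi i) with hm | hm
    · have e1 := hm.monotoneOn ⟨le_rfl, i.2.le⟩ ⟨h1, h2⟩ h1
      have e2 := hm.monotoneOn ⟨h1, h2⟩ ⟨i.2.le, le_rfl⟩ h2
      exact ⟨(min_le_left _ _).trans e1, e2.trans (le_max_right _ _)⟩
    · have e1 := hm.antitoneOn ⟨le_rfl, i.2.le⟩ ⟨h1, h2⟩ h1
      have e2 := hm.antitoneOn ⟨h1, h2⟩ ⟨i.2.le, le_rfl⟩ h2
      exact ⟨(min_le_right _ _).trans e2, e1.trans (le_max_left _ _)⟩
  have hsurj : ∀ (i : {i // a i < b i}) (y : ℝ), A i ≤ y → y ≤ B i →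
      ∃ t, (a i.1 ≤ t ∧ t ≤ b i.1) ∧ F i t = y := by
    intro i y h1 h2
    have h3 : Set.uIcc (F i (a i.1)) (F i (b i.1)) ⊆ F i '' Set.uIcc (a i.1) (b i.1) :=
      intermediate_value_uIcc (by rw [Set.uIcc_of_le i.2.le]; exact hF i)
    obtain ⟨t, ht, hty⟩ := h3 ⟨h1, h2⟩
    rw [Set.uIcc_of_le i.2.le] at ht
    exact ⟨t, ht, hty⟩
  -- summability at the point closest to zero
  have hcl : ∀ i : {i // a i < b i}, max (A i) 0 + max (-B i) 0 ≤ |F i (x₀ i.1)| := by
    intro i
    obtain ⟨h1, h2⟩ := himg i (x₀ i.1) (hx₀ i.1).1 (hx₀ i.1).2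
    have h3 := hAB i
    rcases le_total (A i) 0 with h4 | h4
    · rw [max_eq_right h4, zero_add]
      exact max_le (by linarith [neg_abs_le (F i (x₀ i.1))]) (abs_nonneg _)
    · rw [max_eq_left h4, max_eq_right (by linarith : -B i ≤ 0), add_zero]
      exact h1.trans (le_abs_self _)
  have hFs : ∀ s : Finset {i // a i < b i}, ∑ i ∈ s, |F i (x₀ i.1)| ≤ (r - C) / c := by
    intro s
    have h1 := hest2 x₀ r hx₀ hsum s
    have h2 : ∑ i ∈ s, |F i (x₀ i.1)| = (∑ i ∈ s, |f i.1 (x₀ i.1)|) / c := by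
      rw [sum_div]
      refine sum_congr rfl fun i _ => ?_
      show |f i.1 (x₀ i.1) / c| = _
      rw [abs_div, abs_of_pos hc0]
    rw [h2]
    exact div_le_div_of_nonneg_right h1 hc0.le
  have hsum2 : ∀ s : Finset {i // a i < b i},
      ∑ i ∈ s, (max (A i) 0 + max (-B i) 0) ≤ (r - C) / c := fun s =>
    (sum_le_sum fun i _ => hcl i).trans (hFs s)
  have hnn : ∀ i, 0 ≤ max (A i) 0 + max (-B i) 0 := fun i =>
    add_nonneg (le_max_right _ _) (le_max_right _ _)
  have hS : Summable fun i => max (A i) 0 + max (-B i) 0 := summable_of_sum_le hnn hsum2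
  have hlt : ∑' i, (max (A i) 0 + max (-B i) 0) < 1 := by
    refine (hS.tsum_le_of_sum_le hsum2).trans_lt ?_
    rw [div_lt_one hc0]
    linarith
  obtain ⟨h1⟩ := General.B_homeo_Pos A B hAB hS hlt
  obtain ⟨h2⟩ := ball_homeo_pos {i // a i < b i}
  -- the homeomorphism with `General.B A B`
  have h3 : Nonempty (Modular a b f ≃ₜ General.B A B) := by
    refine Box.homeo_of_bijOn (isCompact_modular hab fun i => (hf i).1)
      (f := fun x i => F i (x i.1)) ?_ ⟨?_, ?_, ?_⟩
    · refine continuousOn_pi.2 fun i => ?_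
      exact (hF i).comp (continuous_apply i.1).continuousOn fun x hx => hx.1 i.1
    · intro x hx
      refine ⟨fun s => ?_, fun i => himg i (x i.1) (hx.1 i.1).1 (hx.1 i.1).2⟩
      have e1 := hest2 x 1 hx.1 hx.2 s
      have e2 : ∑ i ∈ s, |F i (x i.1)| = (∑ i ∈ s, |f i.1 (x i.1)|) / c := by
        rw [sum_div]
        refine sum_congr rfl fun i _ => ?_
        show |f i.1 (x i.1) / c| = _
        rw [abs_div, abs_of_pos hc0]
      show ∑ i ∈ s, |F i (x i.1)| ≤ 1
      rw [e2, div_le_one hc0]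
      exact e1
    · intro x hx y hy hxy
      funext i
      by_cases hi : a i < b i
      · exact hFi ⟨i, hi⟩ (hx.1 i) (hy.1 i) (congrFun hxy ⟨i, hi⟩)
      · rw [hdeg i hi (x i) (hx.1 i).1 (hx.1 i).2, hdeg i hi (y i) (hy.1 i).1 (hy.1 i).2]
    · intro y hy
      choose t ht hty using fun i => hsurj i (y i) (hy.2 i).1 (hy.2 i).2
      let x : κ → ℝ := fun i => if hi : a i < b i then t ⟨i, hi⟩ else a i
      have hx1 : ∀ i (hi : a i < b i), x i = t ⟨i, hi⟩ := fun i hi => dif_pos hi
      have hx2 : ∀ i, ¬ a i < b i → x i = a i := fun i hi => dif_neg hi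
      have hx : ∀ i, a i ≤ x i ∧ x i ≤ b i := by
        intro i
        by_cases hi : a i < b i
        · rw [hx1 i hi]
          exact ht ⟨i, hi⟩
        · rw [hx2 i hi]
          exact ⟨le_rfl, hab i⟩
      have hFx : ∀ i : {i // a i < b i}, F i (x i.1) = y i := fun i => by
        rw [hx1 i.1 i.2]
        exact hty i
      refine ⟨x, ⟨hx, fun s => ?_⟩, funext hFx⟩
      rw [← sum_congr rfl fun i _ => hle1 x hx i, sum_add_distrib, hsub]
      have e1 : ∑ i ∈ s, g i ≤ C := hgs.sum_le_tsum s fun i _ => hg0 i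
      have e2 : ∑ i ∈ s.subtype (fun i => a i < b i), |f i.1 (x i.1)| =
          c * ∑ i ∈ s.subtype (fun i => a i < b i), |y i| := by
        rw [mul_sum]
        refine sum_congr rfl fun i _ => ?_
        rw [← hFx i]
        show _ = c * |f i.1 (x i.1) / c|
        rw [abs_div, abs_of_pos hc0]
        field_simp
      have e3 := mul_le_mul_of_nonneg_left (hy.1 (s.subtype fun i => a i < b i)) hc0.le
      rw [e2]
      linarith
  obtain ⟨h3⟩ := h3
  exact ⟨h3.trans (h1.symm.trans h2)⟩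

/-- Balls with equinumerous families of disjoint open sets. -/
theorem embedding_of_homeo {κ : Type u} {κ' : Type v} [Infinite κ]
    (h : Nonempty (Ball κ' ≃ₜ Ball κ)) : Nonempty (κ' ↪ κ) := by
  classical
  obtain ⟨h⟩ := h
  -- disjoint open sets
  let V : κ' → Set (Ball κ) := fun j => {y | 1 / 2 < (h.symm y : κ' → ℝ) j}
  have hVo : ∀ j, IsOpen (V j) := fun j =>
    isOpen_lt continuous_const
      ((continuous_apply j).comp (continuous_subtype_val.comp h.symm.continuous))
  have hVd : ∀ i j y, y ∈ V i → y ∈ V j → i = j := by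
    intro i j y hi hj
    by_contra hne
    have h1 := (h.symm y).2 {i, j}
    rw [sum_pair hne] at h1
    have h2 : (1 : ℝ) / 2 < (h.symm y : κ' → ℝ) i := hi
    have h3 : (1 : ℝ) / 2 < (h.symm y : κ' → ℝ) j := hj
    linarith [le_abs_self ((h.symm y : κ' → ℝ) i), le_abs_self ((h.symm y : κ' → ℝ) j)]
  have hVn : ∀ j, (V j).Nonempty := by
    intro j
    have hmem : (Pi.single j (1 : ℝ) : κ' → ℝ) ∈ Ball κ' := by
      intro s
      have e : ∀ i, |(Pi.single j (1 : ℝ) : κ' → ℝ) i| = if i = j then 1 else 0 := by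
        intro i
        by_cases hij : i = j
        · subst hij
          simp
        · rw [Pi.single_eq_of_ne hij, if_neg hij, abs_zero]
      simp only [e]
      rw [sum_ite_eq']
      split_ifs <;> norm_num
    refine ⟨h ⟨_, hmem⟩, ?_⟩
    show 1 / 2 < (h.symm (h ⟨Pi.single j (1 : ℝ), hmem⟩) : κ' → ℝ) j
    rw [h.symm_apply_apply]
    show (1 : ℝ) / 2 < (Pi.single j (1 : ℝ) : κ' → ℝ) j
    rw [Pi.single_eq_same]
    norm_num
  -- rational boxes
  let box : Finset (κ × ℚ × ℚ) → Set (Ball κ) := fun P =>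
    {y | ∀ p ∈ P, (p.2.1 : ℝ) < (y : κ → ℝ) p.1 ∧ (y : κ → ℝ) p.1 < (p.2.2 : ℝ)}
  have hbox : ∀ j, ∃ P, (box P).Nonempty ∧ box P ⊆ V j := by
    intro j
    obtain ⟨y, hy⟩ := hVn j
    obtain ⟨W, hW, hWV⟩ := isOpen_induced_iff.1 (hVo j)
    have hyW : (y : κ → ℝ) ∈ W := by
      have : y ∈ Subtype.val ⁻¹' W := by rw [hWV]; exact hy
      exact this
    obtain ⟨I, w, hw, hIW⟩ := isOpen_pi_iff.1 hW _ hyW
    have hq : ∀ i : κ, ∃ q r : ℚ, (q : ℝ) < (y : κ → ℝ) i ∧ (y : κ → ℝ) i < (r : ℝ) ∧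
        (i ∈ I → Set.Ioo (q : ℝ) r ⊆ w i) := by
      intro i
      by_cases hi : i ∈ I
      · obtain ⟨l, u', hlu, hsub⟩ := mem_nhds_iff_exists_Ioo_subset.1
          ((hw i hi).1.mem_nhds (hw i hi).2)
        obtain ⟨q, hq1, hq2⟩ := exists_rat_btwn hlu.1
        obtain ⟨r, hr1, hr2⟩ := exists_rat_btwn hlu.2
        exact ⟨q, r, hq2, hr1, fun _ => (Set.Ioo_subset_Ioo hq1.le hr2.le).trans hsub⟩
      · obtain ⟨q, hq⟩ := exists_rat_lt ((y : κ → ℝ) i)
        obtain ⟨r, hr⟩ := exists_rat_gt ((y : κ → ℝ) i)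
        exact ⟨q, r, hq, hr, fun h => absurd h hi⟩
    choose q r hq1 hq2 hq3 using hq
    refine ⟨I.image fun i => (i, q i, r i), ⟨y, fun p hp => ?_⟩, fun z hz => ?_⟩
    · obtain ⟨i, _, rfl⟩ := mem_image.1 hp
      exact ⟨hq1 i, hq2 i⟩
    · have hzW : (z : κ → ℝ) ∈ W := by
        refine hIW fun i hi => ?_
        exact hq3 i hi (hz (i, q i, r i) (mem_image_of_mem _ hi))
      have : z ∈ Subtype.val ⁻¹' W := hzW
      rw [hWV] at this
      exact this
  choose P hPn hPV using hbox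
  have hPinj : Function.Injective P := by
    intro i j hij
    obtain ⟨y, hy⟩ := hPn i
    exact hVd i j y (hPV i hy) (hPV j (hij ▸ hy))
  have hcard : Cardinal.mk (Finset (κ × ℚ × ℚ)) = Cardinal.mk κ := by
    rw [Cardinal.mk_finset_of_infinite]
    rw [Cardinal.mk_prod, Cardinal.mk_prod]
    simp
  obtain ⟨e⟩ := Cardinal.eq.1 hcard
  exact ⟨⟨fun j => e (P j), e.injective.comp hPinj⟩⟩

/-- **Main theorem.** (1) Every modular ball with uncountably many nondegenerate coordinates, on
which the sum takes a value below one, is homeomorphic to the ball `B(κ₀)`, where `κ₀` is the set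
of its nondegenerate coordinates. (2) Two such spaces are homeomorphic if and only if their sets
of nondegenerate coordinates are equinumerous. -/
theorem result :
    (∀ (κ : Type u) (a b : κ → ℝ) (f : κ → ℝ → ℝ), Admissible a b f →
      Nonempty (Modular a b f ≃ₜ Ball {i // a i < b i})) ∧
    ∀ (κ : Type u) (κ' : Type v) (a b : κ → ℝ) (f : κ → ℝ → ℝ) (a' b' : κ' → ℝ)
      (f' : κ' → ℝ → ℝ), Admissible a b f → Admissible a' b' f' →
      (Nonempty (Modular a b f ≃ₜ Modular a' b' f') ↔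
        Nonempty ({i // a i < b i} ≃ {j // a' j < b' j})) := by
  refine ⟨fun κ a b f h => modular_homeo h, fun κ κ' a b f a' b' f' h h' => ?_⟩
  obtain ⟨e⟩ := modular_homeo h
  obtain ⟨e'⟩ := modular_homeo h'
  have := h.2.1
  have := h'.2.1
  constructor
  · rintro ⟨g⟩
    obtain ⟨i1⟩ := embedding_of_homeo (κ := {j // a' j < b' j}) (κ' := {i // a i < b i})
      ⟨e.symm.trans (g.trans e')⟩
    obtain ⟨i2⟩ := embedding_of_homeo (κ := {i // a i < b i}) (κ' := {j // a' j < b' j})
      ⟨e'.symm.trans (g.symm.trans e)⟩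
    exact Function.Embedding.antisymm i1 i2
  · rintro ⟨g⟩
    obtain ⟨k⟩ := ball_congr g
    exact ⟨e.trans (k.trans e'.symm)⟩

end Pool.Agent.Results.MP_c6db0f_gt.ModularBalls
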